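import Pool.Agent.Lib.MP_36fb43_ag.Sc.Defs
import Pool.Agent.Lib.MP_cd184e_ag.B.Loc

/-! The line bundle with given transition functions, and its frames. -/

set_option autoImplicit false

namespace Pool.Agent.Lib.MP_36fb43_ag.Sc

open CategoryTheory AlgebraicGeometry Opposite TopologicalSpace
open Pool.Agent.Lib.MP_cd184e_ag.B

noncomputable section

variable {Y : Scheme.{0}}

variable {κ : Type} {U : κ → Y.Opens} (g : ∀ i, κ → Γ(Y, U i))

/-- the families of functions `f i` on `V ∩ U i` with `f i = g i j * f j` on the overlaps -/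
def sec (V : Y.Opens) : AddSubgroup (∀ i, Γ(Y, V ⊓ U i)) where
  carrier := {f | ∀ i j W (hi : W ≤ V ⊓ U i) (hj : W ≤ V ⊓ U j),
    rres hi (f i) = rres (hi.trans inf_le_right) (g i j) * rres hj (f j)}
  zero_mem' i j W hi hj := by simp
  add_mem' hf hg i j W hi hj := by
    simp only [Pi.add_apply, map_add, hf i j W hi hj, hg i j W hi hj, mul_add]
  neg_mem' hf i j W hi hj := by simp only [Pi.neg_apply, map_neg, hf i j W hi hj, mul_neg]

/-- restriction of families -/
def secRes {V W : Y.Opens} (h : W ≤ V) : sec g V →+ sec g W where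
  toFun f := ⟨fun i => rres (inf_le_inf_right _ h) (f.1 i), fun i j Z hi hj => by
    rw [rres_rres, rres_rres]; exact f.2 i j Z _ _⟩
  map_zero' := Subtype.ext (funext fun _ => map_zero _)
  map_add' _ _ := Subtype.ext (funext fun _ => map_add _ _ _)

/-- functions multiply families -/
@[reducible] def secModule (V : Y.Opens) : Module Γ(Y, V) (sec g V) where
  smul a f := ⟨fun i => rres inf_le_left a * f.1 i, fun i j W hi hj => by
    rw [map_mul, map_mul, rres_rres, rres_rres, f.2 i j W hi hj, mul_left_comm]⟩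
  one_smul _ := Subtype.ext (funext fun _ => (congrArg (· * _) (map_one _)).trans (one_mul _))
  mul_smul _ _ _ :=
    Subtype.ext (funext fun _ => (congrArg (· * _) (map_mul _ _ _)).trans (mul_assoc _ _ _))
  smul_zero _ := Subtype.ext (funext fun _ => mul_zero _)
  smul_add _ _ _ := Subtype.ext (funext fun _ => mul_add _ _ _)
  add_smul _ _ _ :=
    Subtype.ext (funext fun _ => (congrArg (· * _) (map_add _ _ _)).trans (add_mul _ _ _))
  zero_smul _ := Subtype.ext (funext fun _ => (congrArg (· * _) (map_zero _)).trans (zero_mul _))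

/-- the presheaf of families -/
def secPre : (Y.Opens)ᵒᵖ ⥤ Ab.{0} where
  obj V := AddCommGrpCat.of (sec g V.unop)
  map i := AddCommGrpCat.ofHom (secRes g i.unop.le)
  map_id _ := AddCommGrpCat.ext fun _ => Subtype.ext (funext fun _ => rres_self _ _)
  map_comp _ _ := AddCommGrpCat.ext fun _ => Subtype.ext (funext fun _ => (rres_rres _ _ _).symm)

theorem secPre_isSheaf : TopCat.Presheaf.IsSheaf (X := Y) (secPre g) := by
  refine (TopCat.Presheaf.isSheaf_iff_isSheafUniqueGluing _).2 fun μ V s hs => ?_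
  have cov : ∀ {W : Y.Opens} (i), W ≤ iSup V ⊓ U i → W ≤ ⨆ k, W ⊓ V k := fun i h x hx => by
    obtain ⟨k, hk⟩ := Opens.mem_iSup.1 (h hx).1
    exact Opens.mem_iSup.2 ⟨k, hx, hk⟩
  have key : ∀ i, ∃! t : Γ(Y, iSup V ⊓ U i),
      ∀ k, rres (inf_le_inf_right _ (le_iSup V k)) t = (s k).1 i := fun i =>
    Y.sheaf.existsUnique_gluing' (fun k => V k ⊓ U i) _
      (fun k => homOfLE (inf_le_inf_right _ (le_iSup V k)))
      ((cov i le_rfl).trans (iSup_mono fun k => le_inf inf_le_right
        (inf_le_left.trans inf_le_right))) (fun k => (s k).1 i) fun k l => by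
        have h : V k ⊓ U i ⊓ (V l ⊓ U i) ≤ V k ⊓ V l ⊓ U i := fun x hx => ⟨⟨hx.1.1, hx.2.1⟩, hx.1.2⟩
        exact (rres_rres _ h _).symm.trans
          ((congrArg (fun f : sec g (V k ⊓ V l) => rres h (f.1 i)) (hs k l)).trans (rres_rres _ h _))
  choose t ht hu using key
  refine ⟨⟨t, fun i j W hi hj => ?_⟩, fun k => Subtype.ext (funext fun i => ht i k),
    fun u h => Subtype.ext (funext fun i => hu i _ fun k => congrArg (fun f => f.1 i) (h k))⟩
  refine Y.sheaf.eq_of_locally_eq' (fun k => W ⊓ V k) W (fun k => homOfLE inf_le_left)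
    (cov i hi) _ _ fun k => ?_
  have e := (s k).2 i j (W ⊓ V k) (le_inf inf_le_right (inf_le_left.trans (hi.trans inf_le_right)))
    (le_inf inf_le_right (inf_le_left.trans (hj.trans inf_le_right)))
  rw [← ht i k, ← ht j k, rres_rres, rres_rres] at e
  change rres inf_le_left _ = rres inf_le_left _
  rw [map_mul, rres_rres, rres_rres, rres_rres]
  exact e

/-- the sheaf of modules with transition functions `g i j` -/
def glue : Y.Modules :=
  ⟨@PresheafOfModules.ofPresheaf _ _ _ (secPre g) (fun V => secModule g V.unop) fun _ _ _ _ _ =>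
    Subtype.ext (funext fun _ => (map_mul _ _ _).trans (congrArg (· * _)
      ((rres_rres _ _ _).trans (rres_rres _ _ _).symm))), secPre_isSheaf g⟩

variable {g}

/-- the cocycle conditions -/
structure Coc (g : ∀ i, κ → Γ(Y, U i)) : Prop where
  one : ∀ i, g i i = 1
  mul : ∀ i j k W (hi : W ≤ U i) (hj : W ≤ U j),
    rres hi (g i k) = rres hi (g i j) * rres hj (g j k)

/-- the family behind a section -/
def fam {W : Y.Opens} (s : Γ(glue g, W)) : sec g W := s

/-- the coordinate of a section in the chart `i` -/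
def co (g : ∀ i, κ → Γ(Y, U i)) (i : κ) {W : Y.Opens} (h : W ≤ U i) :
    Γ(glue g, W) →+ Γ(Y, W) where
  toFun s := rres (le_inf le_rfl h) ((fam s).1 i)
  map_zero' := map_zero _
  map_add' _ _ := map_add (rres (le_inf le_rfl h)) _ _

theorem co_smul (i : κ) {W : Y.Opens} (h : W ≤ U i) (a : Γ(Y, W)) (s : Γ(glue g, W)) :
    co g i h (a • s) = a * co g i h s := by
  change rres _ (rres inf_le_left a * (fam s).1 i) = a * rres _ ((fam s).1 i)
  rw [map_mul, rres_rres, rres_self]

theorem co_mres (i : κ) {W W' : Y.Opens} (h : W ≤ U i) (h' : W' ≤ W) (s : Γ(glue g, W)) :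
    co g i (h'.trans h) (mres _ h' s) = rres h' (co g i h s) := by
  change rres _ (rres (inf_le_inf_right _ h') ((fam s).1 i)) = rres h' (rres _ ((fam s).1 i))
  rw [rres_rres, rres_rres]

theorem co_inj (i : κ) {W : Y.Opens} (h : W ≤ U i) : Function.Injective (co g i h) := by
  refine (injective_iff_map_eq_zero _).2 fun s hs => ?_
  refine Subtype.ext (funext fun j => ?_)
  have e : rres le_rfl ((fam s).1 j) = rres _ (g j i) * rres _ ((fam s).1 i) :=
    (fam s).2 j i (W ⊓ U j) le_rfl (le_inf inf_le_left (inf_le_left.trans h))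
  have e2 := congrArg (rres (inf_le_left : W ⊓ U j ≤ W)) hs
  change rres _ (rres _ ((fam s).1 i)) = _ at e2
  rw [rres_rres, map_zero] at e2
  rw [rres_self, e2, mul_zero] at e
  exact e

/-- the frame over the chart `i` -/
def fr (H : Coc g) (i : κ) : Γ(glue g, U i) :=
  (⟨fun j => rres inf_le_right (g j i), fun j k W hj hk => by
    change rres hj (rres _ _) = rres _ _ * rres hk (rres _ _)
    rw [rres_rres, rres_rres]
    exact H.mul j k i W _ _⟩ : sec g (U i))

theorem co_fr (H : Coc g) (i j : κ) {W : Y.Opens} (hi : W ≤ U i) (hj : W ≤ U j) :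
    co g i hi (mres _ hj (fr H j)) = rres hi (g i j) := by
  change rres _ (rres (inf_le_inf_right _ hj) (rres inf_le_right (g i j))) = _
  rw [rres_rres, rres_rres]

theorem eq_fr (H : Coc g) (i : κ) {W : Y.Opens} (h : W ≤ U i) (s : Γ(glue g, W)) :
    s = co g i h s • mres _ h (fr H i) :=
  co_inj i h (by rw [co_smul, co_fr H, H.one, map_one, mul_one])

theorem glue_frames {r : ∀ i, κ → Γ(Y, U i)} {d : ℕ} (H : Coc fun i j => r i j ^ d) :
    HasFrames (glue fun i j => r i j ^ d) U r d := by
  refine ⟨fr H, fun i W h => ⟨fun a b e => ?_, fun s => ⟨_, (eq_fr H i h s).symm⟩⟩,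
    fun i j W hi hj => ?_⟩
  · have e' : co _ i h (a • mres _ h (fr H i)) = co _ i h (b • mres _ h (fr H i)) :=
      congrArg (co _ i h) e
    rwa [co_smul, co_smul, co_fr H, H.one, map_one, mul_one, mul_one] at e'
  · have e := eq_fr H i hi (mres _ hj (fr H j))
    rw [co_fr H, map_pow] at e
    exact e

end

end Pool.Agent.Lib.MP_36fb43_ag.Sc
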