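import Pool.Agent.Lib.MP_36fb43_ag.Sc.Build
import Pool.Agent.Lib.MP_d4c0ca_ag.Q.Lin

/-! The charts of projective space. -/

set_option autoImplicit false

namespace Pool.Agent.Lib.MP_36fb43_ag.Sc

open CategoryTheory AlgebraicGeometry MvPolynomial HomogeneousLocalization TopologicalSpace
open Pool.Agent.Lib.MP_cd184e_ag.B Pool.Agent.Lib.MP_d4c0ca_ag

noncomputable section

theorem mem_away {S : Type} [CommRing S] [Algebra ℂ S] {𝒜 : ℕ → Submodule ℂ S} [GradedAlgebra 𝒜]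
    {f a : S} {m n : ℕ} (hf : f ∈ 𝒜 m) (ha : a ∈ 𝒜 (n • m)) {p : Proj 𝒜}
    (hp : p ∈ Proj.basicOpen 𝒜 f) :
    p ∈ (Proj 𝒜).basicOpen (Proj.awayToSection 𝒜 f (Away.mk 𝒜 hf n a ha)) ↔
      a ∉ p.asHomogeneousIdeal := by
  have h2 := congr($(ProjectiveSpectrum.Proj.awayToSection_germ 𝒜 f p hp) (Away.mk 𝒜 hf n a ha))
  have := p.isPrime
  have h5 : (mapId 𝒜 (Submonoid.powers_le.mpr hp) (Away.mk 𝒜 hf n a ha)).val =
    Localization.mk a ⟨f ^ n, pow_mem (show f ∈ Ideal.primeCompl _ from hp) n⟩ := rfl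
  refine ((Proj 𝒜).mem_basicOpen _ p hp).trans ((congrArg IsUnit h2).to_iff.trans ?_)
  change IsUnit ((Proj.stalkIso' 𝒜 p).symm (mapId 𝒜 (Submonoid.powers_le.mpr hp)
    (Away.mk 𝒜 hf n a ha))) ↔ _
  refine (MulEquiv.isUnit_map _).trans ((isUnit_iff_isUnit_val 𝒜 _ _).symm.trans ?_)
  rw [h5, Localization.mk_eq_mk', IsLocalization.AtPrime.isUnit_mk'_iff]
  rfl

theorem le_core {S : Type} [CommRing S] [Algebra ℂ S] {𝒜 : ℕ → Submodule ℂ S} [GradedAlgebra 𝒜]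
    {P : HomogeneousIdeal 𝒜} {J : Ideal S} : P ≤ J.homogeneousCore 𝒜 ↔ ∀ f ∈ P.toIdeal, f ∈ J :=
  (Ideal.homogeneousCore.gc 𝒜 P J).symm

attribute [local instance] MvPolynomial.gradedAlgebra

theorem hX (l : Fin 6) : (X l : MvPolynomial (Fin 6) ℂ) ∈ homogeneousSubmodule (Fin 6) ℂ 1 :=
  isHomogeneous_X ℂ l

/-- `f (x / x i)` -/
def dh (i : Fin 6) : MvPolynomial (Fin 6) ℂ →+* Γ(P5, chart i) := T.dehom hX i

theorem dh_X (i j : Fin 6) : dh i (X j) = ratio i j := T.dehom_X (hx := hX) i j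

theorem dh_self (i : Fin 6) : dh i (X i) = 1 := T.dehom_self (hx := hX) i

theorem dh_trans {d : ℕ} {f : MvPolynomial (Fin 6) ℂ} (hf : f.IsHomogeneous d) (i j : Fin 6)
    {W : P5.Opens} (hi : W ≤ chart i) (hj : W ≤ chart j) :
    rres hi (dh i f) = rres hi (ratio i j) ^ d * rres hj (dh j f) :=
  dh_X i j ▸ T.dehom_trans (hx := hX) hf i j hi hj

theorem dh_surj (i : Fin 6) : Function.Surjective (dh i) :=
  T.dehom_surj (hx := hX) adjoin_range_X i

theorem dh_mem {d : ℕ} {f : MvPolynomial (Fin 6) ℂ} (hf : f.IsHomogeneous d) {i : Fin 6} {p : P5}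
    (hp : p ∈ chart i) : p ∈ P5.basicOpen (dh i f) ↔ f ∉ p.asHomogeneousIdeal := by
  have e := congrArg (fun s => p ∈ (Proj _).basicOpen s) (T.dehom_homog (hx := hX) i hf)
  refine e.to_iff.trans ((mem_away (hX i) _ hp).trans ?_)
  rw [aeval_X_left_apply]

theorem dh_C (i : Fin 6) (z : Q.kk) : dh i (C (Q.toC z)) = Q.cst strMap (chart i) z :=
  (T.dehom_C (hx := hX) i _).trans (Q.lin_cst (hX i) z).symm

theorem coc (d : ℕ) : Coc fun i j => ratio i j ^ d where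
  one i := by rw [← dh_X, dh_self, one_pow]
  mul i j k W hi hj := by
    rw [map_pow, map_pow, map_pow, ← mul_pow, ← dh_X i k, dh_trans (isHomogeneous_X ℂ k) i j hi hj,
      pow_one, dh_X]

theorem aff (i : Fin 6) : IsAffineOpen (chart i) := T.chart_aff hX i

theorem aff2 (i j : Fin 6) : IsAffineOpen (chart i ⊓ chart j) :=
  (T.chart_inf (hx := hX) i j).symm ▸ (T.chart_aff hX i).basicOpen _

theorem cov : iSup chart = ⊤ := T.chart_cover hX adjoin_range_X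

theorem hom_mem (p : P5) {f : MvPolynomial (Fin 6) ℂ} (hf : f ∈ p.asHomogeneousIdeal.toIdeal)
    (d : ℕ) : homogeneousComponent d f ∈ p.asHomogeneousIdeal.toIdeal :=
  decomposition.decompose'_apply f d ▸ p.asHomogeneousIdeal.isHomogeneous d hf

end

end Pool.Agent.Lib.MP_36fb43_ag.Sc
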