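import Pool.Agent.Lib.MP_36fb43_ag.Sc.Jac

/-! From the charts to the affine cone. -/

set_option autoImplicit false

namespace Pool.Agent.Lib.MP_36fb43_ag.Sc

open MvPolynomial Module Matrix PV

theorem cone_split {σ : Type} (i : σ) (f : MvPolynomial σ ℂ) :
    ∃ (N : ℕ) (F q : MvPolynomial σ ℂ), F.IsHomogeneous N ∧ f = F + (X i - 1) * q := by
  induction f using MvPolynomial.induction_on with
  | C a => exact ⟨0, C a, 0, isHomogeneous_C _ _, by simp⟩
  | add p q hp hq =>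
    obtain ⟨N, F, r, hF, rfl⟩ := hp
    obtain ⟨M, G, s, hG, rfl⟩ := hq
    obtain ⟨a, ha⟩ := sub_one_dvd_pow_sub_one (X i : MvPolynomial σ ℂ) M
    obtain ⟨b, hb⟩ := sub_one_dvd_pow_sub_one (X i : MvPolynomial σ ℂ) N
    refine ⟨N + M, F * X i ^ M + X i ^ N * G, r + s - F * a - G * b,
      (hF.mul (isHomogeneous_X_pow i M)).add ((isHomogeneous_X_pow i N).mul hG), ?_⟩
    linear_combination -F * ha - G * hb
  | mul_X p k hp =>
    obtain ⟨N, F, r, hF, rfl⟩ := hp
    exact ⟨N + 1, F * X k, r * X k, hF.mul (isHomogeneous_X _ k), by ring⟩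

variable {I : Ideal (MvPolynomial (Fin 6) ℂ)}

theorem cone_on (hI : ∀ f ∈ I, ∀ d, homogeneousComponent d f ∈ I) {v : Fin 6 → ℂ} (h : On I v)
    (t : ℂ) : On I (t • v) := fun f hf => by
  rw [← sum_homogeneousComponent f, map_sum]
  refine Finset.sum_eq_zero fun d _ => ?_
  rw [aeval_smul_hom (homogeneousComponent_isHomogeneous d f), h _ (hI f hf d), mul_zero]

theorem cone_euler (hI : ∀ f ∈ I, ∀ d, homogeneousComponent d f ∈ I) {w : Fin 6 → ℂ}
    (h : On I w) {u : Fin 6 → ℂ} (hu : u ∈ Nm I w) : w ⬝ᵥ u = 0 := by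
  have : Nm I w ≤ LinearMap.ker (dotProductBilin ℂ ℂ w) := Submodule.span_le.2 (by
    rintro _ ⟨f, hf, rfl⟩
    change w ⬝ᵥ gr f w = 0
    have e : ∀ d, w ⬝ᵥ gr (homogeneousComponent d f) w = 0 := fun d => by
      have := congrArg (aeval w) (homogeneousComponent_isHomogeneous d f).sum_X_mul_pderiv
      rw [map_nsmul, h _ (hI f hf d), smul_zero] at this
      simpa [gr, dotProduct] using this
    have e2 : gr f w = ∑ d ∈ Finset.range (f.totalDegree + 1),
        gr (homogeneousComponent d f) w := by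
      funext i
      conv_lhs => rw [← sum_homogeneousComponent f]
      simp only [gr, map_sum, Finset.sum_apply]
    rw [e2, dotProduct_sum]
    exact Finset.sum_eq_zero fun d _ => e d)
  exact this hu

theorem cone_two (hI : ∀ f ∈ I, ∀ d, homogeneousComponent d f ∈ I) {A : Type} [CommRing A]
    {i : Fin 6} (φ : MvPolynomial (Fin 6) ℂ →+* A) (hφ : Function.Surjective φ) (h1 : φ (X i) = 1)
    (hk : ∀ N F, IsHomogeneous F N → (φ F = 0 ↔ F ∈ I))
    (hs : RingHom.Locally (RingHom.IsStandardSmoothOfRelativeDimension 3) (φ.comp C))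
    {v : Fin 6 → ℂ} (hv : v i ≠ 0) (h : On I v) : finrank ℂ (Nm I v) = 2 := by
  have hw := cone_on hI h (v i)⁻¹
  have e : Nm I v = Nm I ((v i)⁻¹ • v) := by
    refine le_antisymm ?_ (fr_nm hI _ _)
    have := fr_nm hI ((v i)⁻¹ • v) (v i)
    rwa [smul_inv_smul₀ hv] at this
  have hi : ((v i)⁻¹ • v) i = 1 := inv_mul_cancel₀ hv
  rw [e]
  generalize (v i)⁻¹ • v = w at hw hi
  have sp : ∀ f ∈ RingHom.ker φ, ∃ F ∈ I, ∃ q, f = F + (X i - 1) * q := fun f hf => by
    obtain ⟨N, F, q, hF, rfl⟩ := cone_split i f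
    refine ⟨F, (hk N F hF).1 ?_, q, rfl⟩
    simpa [RingHom.mem_ker, h1] using hf
  have hJ : On (RingHom.ker φ) w := fun f hf => by
    obtain ⟨F, hF, q, rfl⟩ := sp f hf
    rw [map_add, hw F hF]
    simp [hi]
  have r := jac_rank φ hφ hs hJ
  have e1 : Nm (RingHom.ker φ) w = Nm I w ⊔ Submodule.span ℂ {Pi.single i 1} := by
    refine le_antisymm (Submodule.span_le.2 ?_) (sup_le (Submodule.span_mono ?_) ?_)
    · rintro _ ⟨f, hf, rfl⟩
      obtain ⟨F, hF, q, rfl⟩ := sp f hf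
      have : gr (F + (X i - 1) * q) w = gr F w + aeval w q • Pi.single i 1 := by
        funext k
        by_cases e : k = i <;> simp [gr, hi, pderiv_X, Pi.single_apply, e, eq_comm]
      rw [this]
      exact Submodule.add_mem_sup (Submodule.subset_span ⟨F, hF, rfl⟩)
        (Submodule.smul_mem _ _ (Submodule.mem_span_singleton_self _))
    · rintro _ ⟨f, hf, rfl⟩
      refine ⟨f, ?_, rfl⟩
      rw [← sum_homogeneousComponent f]
      exact Ideal.sum_mem _ fun d _ =>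
        (hk d _ (homogeneousComponent_isHomogeneous d f)).2 (hI f hf d)
    · refine (Submodule.span_singleton_le_iff_mem _ _).2
        (Submodule.subset_span ⟨X i - 1, by simp [RingHom.mem_ker, h1], ?_⟩)
      funext k
      simp [gr, pderiv_X, Pi.single_apply, apply_ite, eq_comm]
  have e2 : Disjoint (Nm I w) (Submodule.span ℂ {Pi.single i 1}) :=
    (Submodule.disjoint_span_singleton' (by simp)).2 fun hm => by
      simpa [hi] using cone_euler hI hw hm
  have e3 := Submodule.finrank_sup_add_finrank_inf_eq (Nm I w) (Submodule.span ℂ {Pi.single i 1})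
  rw [← e1, e2.eq_bot, finrank_bot, finrank_span_singleton (by simp)] at e3
  rw [Fintype.card_fin] at r
  omega

theorem cone_of (hp : I.IsPrime) (hI : ∀ f ∈ I, ∀ d, homogeneousComponent d f ∈ I)
    (hn : ∃ i, X i ∉ I) (two : ∀ v : Fin 6 → ℂ, v ≠ 0 → On I v → finrank ℂ (Nm I v) = 2) :
    ∃ Z : Cone ℂ 6, Z.I = I := by
  refine ⟨⟨I, hp, hI, hn, fun F _ _ x hx h => ?_⟩, rfl⟩
  obtain ⟨i, hi⟩ := Function.ne_iff.1 hx
  refine le_antisymm ?_ ?_
  · by_contra h3
    obtain ⟨f, ι, hf, hd⟩ := (fr_rank (r := 3)).1 (Nat.succ_le_of_lt (not_le.1 h3))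
    obtain ⟨y, h1, h2⟩ := spec_pt x
      (g := MvPolynomial.X i * (Matrix.of fun a b => pderiv (ι b) (f a)).det)
      (by rw [map_mul, aeval_X]; exact mul_ne_zero hi hd)
    rw [map_mul, eval_X, mul_ne_zero_iff] at h2
    have h4 := (fr_rank (x := y)).2 ⟨f, ι, hf, h2.2⟩
    rw [two y (fun e => h2.1 (by simp [e])) (fun g hg => h1 g (h g hg))] at h4
    omega
  · obtain ⟨y, h1, h2⟩ := spec_pt (k := ℂ) x (g := MvPolynomial.X i) (by rwa [aeval_X])
    rw [eval_X] at h2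
    obtain ⟨f, ι, hf, hd⟩ := (fr_rank (r := 2)).1
      (two y (fun e => h2 (by simp [e])) (fun g hg => h1 g (h g hg))).ge
    exact fr_rank.2 ⟨f, ι, hf, fun e => hd (h1 _ e)⟩

theorem cone_pal (h : Palat I) :
    ∃ W : Submodule ℂ (LinearMap.BilinForm ℂ (Fin 6 → ℂ)), (∀ ω ∈ W, ω.IsAlt) ∧
      finrank ℂ W = 4 ∧ ∀ v : Fin 6 → ℂ, v ≠ 0 →
        (On I v ↔ ∃ ω ∈ W, ω ≠ 0 ∧ ∀ u, ω v u = 0) := by
  obtain ⟨W, h1, h2, h3⟩ := h
  have key : ∀ ω ∈ W, ∀ x v : Fin 6 → ℂ, Matrix.toBilin' ω x v = -(v ⬝ᵥ ω *ᵥ x) := by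
    intro ω hω x v
    rw [Matrix.toBilin'_apply', dotProduct_mulVec, ← mulVec_transpose, h1 ω hω, neg_mulVec,
      neg_dotProduct, dotProduct_comm]
  refine ⟨W.map (Matrix.toBilin' (R₁ := ℂ) (n := Fin 6)).toLinearMap, ?_, ?_, fun x hx => ?_⟩
  · rintro _ ⟨ω, hω, rfl⟩ v
    have h4 := key ω hω v v
    rw [← Matrix.toBilin'_apply'] at h4
    exact self_eq_neg.1 h4
  · rw [LinearEquiv.finrank_map_eq, h2]
  · rw [h3 x hx]
    constructor
    · rintro ⟨ω, hω, h0, e⟩
      refine ⟨_, ⟨ω, hω, rfl⟩, by simpa using h0, fun v => ?_⟩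
      have := key ω hω x v
      rw [e, dotProduct_zero, neg_zero] at this
      exact this
    · rintro ⟨_, ⟨ω, hω, rfl⟩, h0, e⟩
      refine ⟨ω, hω, by simpa using h0, funext fun i => ?_⟩
      have := (key ω hω x (Pi.single i 1)).symm.trans (e _)
      simpa using this

end Pool.Agent.Lib.MP_36fb43_ag.Sc
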