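import Mathlib

/-! Projective 5-space as a scheme, and what it means to be a twisting sheaf on it. -/

set_option autoImplicit false

namespace Pool.Agent.Lib.MP_36fb43_ag.Sc

open CategoryTheory AlgebraicGeometry MvPolynomial

noncomputable section

section general
variable {X Y : Scheme.{0}}

/-- restriction of functions -/
def res {V W : Y.Opens} (h : W ≤ V) (a : Γ(Y, V)) : Γ(Y, W) := Y.presheaf.map (homOfLE h).op a

/-- restriction of sections of a sheaf of modules -/
def sres (L : Y.Modules) {V W : Y.Opens} (h : W ≤ V) (s : Γ(L, V)) : Γ(L, W) :=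
  L.presheaf.map (homOfLE h).op s

/-- `e` is a basis of `L` over `U` -/
def IsFrame (L : Y.Modules) {U : Y.Opens} (e : Γ(L, U)) : Prop :=
  ∀ (W : Y.Opens) (h : W ≤ U), Function.Bijective fun a : Γ(Y, W) => a • sres L h e

/-- `L` has bases `e i` over the `U i` with `e j = g i j ^ d • e i` on the overlaps -/
def HasFrames (L : Y.Modules) {κ : Type} (U : κ → Y.Opens) (g : ∀ i, κ → Γ(Y, U i)) (d : ℕ) :
    Prop :=
  ∃ e : ∀ i, Γ(L, U i), (∀ i, IsFrame L (e i)) ∧
    ∀ (i j : κ) (W : Y.Opens) (hi : W ≤ U i) (hj : W ≤ U j),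
      sres L hj (e j) = res hi (g i j) ^ d • sres L hi (e i)

/-- the map `H⁰(Y, L) → H⁰(X, ι^* L)` is onto -/
def OntoSections (ι : X ⟶ Y) (L : Y.Modules) : Prop :=
  Function.Surjective (((Scheme.Modules.pullbackPushforwardAdjunction ι).unit.app L).app ⊤)

/-- the function `a / f` on the open set `f ≠ 0` of `Proj`, for `a`, `f` of degree one -/
def frac {S σ : Type} [CommRing S] [SetLike σ S] [AddSubgroupClass σ S] (𝒜 : ℕ → σ)
    [GradedRing 𝒜] {f a : S} (hf : f ∈ 𝒜 1) (ha : a ∈ 𝒜 1) :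
    Γ(Proj 𝒜, Proj.basicOpen 𝒜 f) :=
  (Proj.awayToSection 𝒜 f).hom (HomogeneousLocalization.Away.mk 𝒜 hf 1 a ha)

/-- `v` lies in the kernel of a nonzero form of `W` -/
def InKernel {V : Type} [AddCommMonoid V] [Module ℂ V] (W : Submodule ℂ (LinearMap.BilinForm ℂ V))
    (v : V) : Prop :=
  ∃ ω ∈ W, ω ≠ 0 ∧ ∀ u, ω v u = 0

end general

attribute [local instance] MvPolynomial.gradedAlgebra

/-- complex projective 5-space -/
def P5 : Scheme.{0} := Proj (homogeneousSubmodule (Fin 6) ℂ)

/-- its structure morphism -/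
def strMap : P5 ⟶ Spec (.of ℂ) :=
  Proj.toSpecZero (homogeneousSubmodule (Fin 6) ℂ) ≫
    Spec.map (CommRingCat.ofHom (algebraMap ℂ (homogeneousSubmodule (Fin 6) ℂ 0)))

/-- the chart `x i ≠ 0` -/
def chart (i : Fin 6) : P5.Opens := Proj.basicOpen (homogeneousSubmodule (Fin 6) ℂ) (X i)

/-- the function `x j / x i` on the chart `x i ≠ 0` -/
def ratio (i j : Fin 6) : Γ(P5, chart i) :=
  frac (homogeneousSubmodule (Fin 6) ℂ) (isHomogeneous_X ℂ i) (isHomogeneous_X ℂ j)

/-- `L` is a twisting sheaf `O(d)`: it has a basis `e i` (standing for `x i ^ d`) over each chart,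
with `e j = (x j / x i) ^ d • e i` -/
def IsTwist (d : ℕ) (L : P5.Modules) : Prop := HasFrames L chart ratio d

/-- the point `[v]`: the ideal generated by the forms that vanish at `v` -/
def pt (v : Fin 6 → ℂ) (hv : v ≠ 0) : P5 :=
  ⟨(RingHom.ker (eval v)).homogeneousCore (homogeneousSubmodule (Fin 6) ℂ),
    (RingHom.ker_isPrime _).homogeneousCore, fun h => hv (funext fun i =>
      (eval_X i).symm.trans (Ideal.toIdeal_homogeneousCore_le _ _
        (h (HomogeneousIdeal.mem_irrelevant_of_mem _ one_pos (isHomogeneous_X ℂ i)))))⟩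

end

end Pool.Agent.Lib.MP_36fb43_ag.Sc
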