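import Pool.Agent.Lib.MP_36fb43_ag.Sc.Defs
import Pool.Agent.Lib.MP_d4c0ca_ag.Q.PB

/-! Frames of a line bundle and of its inverse images. -/

set_option autoImplicit false

namespace Pool.Agent.Lib.MP_36fb43_ag.Sc

open CategoryTheory AlgebraicGeometry Opposite TopologicalSpace Scheme.Modules
open Pool.Agent.Lib.MP_cd184e_ag.B Pool.Agent.Lib.MP_d4c0ca_ag.Q

noncomputable section

variable {X Y : Scheme.{0}} {L : Y.Modules}

section one
variable {U : Y.Opens} {e : Γ(L, U)}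

theorem fr_inj (H : IsFrame L e) {W : Y.Opens} (h : W ≤ U) {a b : Γ(Y, W)}
    (q : a • mres L h e = b • mres L h e) : a = b := (H W h).1 q

/-- the coordinate of a section in a frame -/
def cf (H : IsFrame L e) {W : Y.Opens} (h : W ≤ U) (s : Γ(L, W)) : Γ(Y, W) := ((H W h).2 s).choose

theorem cf_spec (H : IsFrame L e) {W : Y.Opens} (h : W ≤ U) (s : Γ(L, W)) :
    cf H h s • mres L h e = s := ((H W h).2 s).choose_spec

theorem cf_smul (H : IsFrame L e) {W : Y.Opens} (h : W ≤ U) (a : Γ(Y, W)) (s : Γ(L, W)) :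
    cf H h (a • s) = a * cf H h s := fr_inj H h (by rw [cf_spec, mul_smul, cf_spec])

/-- the coordinate, as an additive map -/
def cfh (H : IsFrame L e) {W : Y.Opens} (h : W ≤ U) : Γ(L, W) →+ Γ(Y, W) :=
  AddMonoidHom.mk' (cf H h) fun a b => fr_inj H h (by rw [cf_spec, add_smul, cf_spec, cf_spec])

theorem cf_mres (H : IsFrame L e) {W W' : Y.Opens} (h : W ≤ U) (h' : W' ≤ W) (s : Γ(L, W)) :
    cf H (h'.trans h) (mres L h' s) = rres h' (cf H h s) :=
  fr_inj H (h'.trans h) (by rw [cf_spec, ← mres_mres L h h', ← mres_smul, cf_spec])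

theorem cf_fr (H : IsFrame L e) {W : Y.Opens} (h : W ≤ U) : cf H h (mres L h e) = 1 :=
  fr_inj H h (by rw [cf_spec, one_smul])

theorem locAt_frame (H : IsFrame L e) {W : Y.Opens} (hW : IsAffineOpen W) (h : W ≤ U) :
    LocAt L W := by
  refine ⟨fun f V hV q s => ?_, fun f V hV q t ht => ?_⟩
  · subst q
    have loc := hW.isLocalization_basicOpen f
    obtain ⟨⟨a, _, n, rfl⟩, ha⟩ := IsLocalization.surj (Submonoid.powers f) (cf H (hV.trans h) s)
    refine ⟨n, a • mres _ h e, ?_⟩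
    have ha' : rres hV a = rres hV f ^ n * cf H (hV.trans h) s := by
      rw [← map_pow, mul_comm]; exact ha.symm
    rw [mres_smul, mres_mres, ha', mul_smul, cf_spec]
  · subst q
    have loc := hW.isLocalization_basicOpen f
    have q : algebraMap Γ(Y, W) Γ(Y, Y.basicOpen f) (cf H h t) = 0 := by
      refine (cf_mres H h hV t).symm.trans ?_
      rw [ht]
      exact map_zero (cfh H _)
    obtain ⟨⟨_, n, rfl⟩, hn⟩ := (IsLocalization.map_eq_zero_iff (Submonoid.powers f) _ _).1 q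
    refine ⟨n, ?_⟩
    have hn' : f ^ n * cf H h t = 0 := hn
    rw [← cf_spec H h t, ← mul_smul, hn', zero_smul]

theorem pb_fr (H : IsFrame L e) (ι : X ⟶ Y) {W : Y.Opens} (hW : IsAffineOpen W) (h : W ≤ U)
    {V : X.Opens} (hV : IsAffineOpen V) (k : V ≤ ι ⁻¹ᵁ W) :
    Function.Bijective fun a : Γ(X, V) => a • pb ι L (k.trans (ι.preimage_mono h)) e := by
  have hL := locAt_frame H hW h
  refine ⟨fun a b q => ?_, fun σ => ?_⟩
  · obtain ⟨ψ, hψ⟩ := pb_lift ι hW hV k hL (N := Γ(X, V))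
      ((ap ι k).toAddMonoidHom.comp (cfh H h)) fun a s => by
        change ap ι k (cf H h (a • s)) = ap ι k a * ap ι k (cf H h s)
        rw [cf_smul, map_mul]
    have e1 : ψ (pb ι L (k.trans (ι.preimage_mono h)) e) = 1 := by
      rw [← pb_mres ι h k, hψ]
      change ap ι k (cf H h _) = 1
      rw [cf_fr, map_one]
    have e2 := congrArg ψ q
    have e3 := (ψ.map_smul a _).symm.trans (e2.trans (ψ.map_smul b _))
    rwa [e1, smul_eq_mul, smul_eq_mul, mul_one, mul_one] at e3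
  · have hσ : σ ∈ Submodule.span Γ(X, V) (Set.range (pb ι L k)) := by
      rw [pb_span ι hW hV k hL]; trivial
    induction hσ using Submodule.span_induction with
    | mem x hx =>
      obtain ⟨s, rfl⟩ := hx
      refine ⟨ap ι k (cf H h s), ?_⟩
      conv_rhs => rw [← cf_spec H h s, pb_smul, pb_mres]
    | zero => exact ⟨0, zero_smul _ _⟩
    | add x y _ _ hx hy =>
      obtain ⟨a, rfl⟩ := hx
      obtain ⟨b, rfl⟩ := hy
      exact ⟨a + b, add_smul _ _ _⟩
    | smul r x _ hx =>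
      obtain ⟨a, rfl⟩ := hx
      exact ⟨r * a, mul_smul _ _ _⟩

end one

theorem onto_of {κ : Type} {U : κ → Y.Opens} {g : ∀ i, κ → Γ(Y, U i)} {d : ℕ}
    (H : HasFrames L U g d) (ι : X ⟶ Y) [IsAffineHom ι] (aff : ∀ i, IsAffineOpen (U i))
    (aff2 : ∀ i j, IsAffineOpen (U i ⊓ U j)) (cov : iSup U = ⊤)
    (h : ∀ a : ∀ i, Γ(X, ι ⁻¹ᵁ U i), (∀ i j V (hi : V ≤ ι ⁻¹ᵁ U i) (hj : V ≤ ι ⁻¹ᵁ U j),
        rres hi (a i) = ap ι hi (g i j) ^ d * rres hj (a j)) →
      ∃ t : ∀ i, Γ(Y, U i), (∀ i j W (hi : W ≤ U i) (hj : W ≤ U j),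
        rres hi (t i) = rres hi (g i j) ^ d * rres hj (t j)) ∧ ∀ i, ap ι le_rfl (t i) = a i) :
    OntoSections ι L := by
  obtain ⟨e, H, tr'⟩ := H
  have tr : ∀ i j W (hi : W ≤ U i) (hj : W ≤ U j),
      mres L hj (e j) = rres hi (g i j) ^ d • mres L hi (e i) := tr'
  intro σ
  let σ' : Γ((pullback ι).obj L, ι ⁻¹ᵁ ⊤) := σ
  choose a ha using fun i => (pb_fr (H i) ι (aff i) le_rfl ((aff i).preimage ι) le_rfl).2
    (mres _ (ι.preimage_mono le_top) σ')
  obtain ⟨t, ht, q⟩ := h a fun i j V hi hj => by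
    have hV : V ≤ ι ⁻¹ᵁ (U i ⊓ U j) := fun x hx => ⟨hi hx, hj hx⟩
    have hi' := ι.preimage_mono (inf_le_left : U i ⊓ U j ≤ U i)
    have hj' := ι.preimage_mono (inf_le_right : U i ⊓ U j ≤ U j)
    have : rres hi' (a i) = ap ι hi' (g i j) ^ d * rres hj' (a j) := by
      refine (pb_fr (H i) ι (aff2 i j) inf_le_left ((aff2 i j).preimage ι) le_rfl).1 ?_
      have e1 := congrArg (mres _ hi') (ha i)
      have e2 := congrArg (mres _ hj') (ha j)
      simp only [mres_smul, mres_pb, mres_mres] at e1 e2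
      have e3 := congrArg (pb ι L le_rfl) (tr i j (U i ⊓ U j) inf_le_left inf_le_right)
      rw [pb_smul, pb_mres, pb_mres, map_pow, ap_rres] at e3
      simp only []
      rw [e1, ← e2, e3, mul_comm, mul_smul]
    have e4 := congrArg (rres hV) this
    simpa only [map_mul, map_pow, rres_rres, rres_ap] using e4
  obtain ⟨s, hs⟩ := sec_glue L (U := ⊤) U (fun _ => le_top) cov.ge (fun i => t i • e i) fun i j => by
    rw [mres_smul, mres_smul, tr i j _ inf_le_left inf_le_right, ht i j _ inf_le_left inf_le_right,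
      mul_comm, mul_smul]
  have key : pb ι L le_rfl s = σ' := by
    refine sec_ext _ _ _ fun x _ => ?_
    obtain ⟨i, hi⟩ := Opens.mem_iSup.1 (show ι x ∈ iSup U by rw [cov]; trivial)
    refine ⟨ι ⁻¹ᵁ U i, ι.preimage_mono le_top, hi, ?_⟩
    rw [mres_pb, ← pb_mres ι le_top le_rfl, hs i, pb_smul, q, ← ha i]
  exact ⟨s, (mres_self _ le_rfl _).symm.trans key⟩

end

end Pool.Agent.Lib.MP_36fb43_ag.Sc
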