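import Pool.Agent.Lib.MP_36fb43_ag.Front

/-! The Jacobian criterion: from smoothness to the rank of the gradients. -/

set_option autoImplicit false

namespace Pool.Agent.Lib.MP_36fb43_ag.Sc

open MvPolynomial Module PV

variable {σ : Type} [Fintype σ]

theorem jac_der {B : Type} [CommRing B] [Algebra ℂ B] [Algebra B ℂ] [IsScalarTower ℂ B ℂ]
    {n : ℕ} [Algebra.IsStandardSmoothOfRelativeDimension n ℂ B] :
    finrank ℂ (Derivation ℂ B ℂ) = n := by
  have : Nontrivial B := (algebraMap B ℂ).domain_nontrivial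
  have := Algebra.IsStandardSmoothOfRelativeDimension.isStandardSmooth n (R := ℂ) (S := B)
  have h := Algebra.IsStandardSmoothOfRelativeDimension.rank_kaehlerDifferential
    (R := ℂ) (S := B) n
  have : Module.Finite B Ω[B⁄ℂ] := Module.finite_of_rank_eq_nat h
  let b := Module.finBasisOfFinrankEq B Ω[B⁄ℂ] (n := n) (Module.finrank_eq_of_rank_eq h)
  let e : (Fin n → ℂ) ≃ₗ[B] Derivation ℂ B ℂ :=
    (b.constr B).trans (KaehlerDifferential.linearMapEquivDerivation ℂ B)
  rw [← (e.restrictScalars ℂ).finrank_eq, finrank_fin_fun]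

theorem jac_dual (w u : σ → ℂ) (f : MvPolynomial σ ℂ) :
    (aeval (fun k => TrivSqZeroExt.inl (w k) + TrivSqZeroExt.inr (u k)) f : TrivSqZeroExt ℂ ℂ) =
      TrivSqZeroExt.inl (aeval w f) + TrivSqZeroExt.inr (gr f w ⬝ᵥ u) := by
  classical
  induction f using MvPolynomial.induction_on with
  | C a => ext <;> simp [gr, dotProduct, TrivSqZeroExt.algebraMap_eq_inl]
  | add p q hp hq =>
    rw [map_add, hp, hq]
    ext <;> simp [gr, dotProduct, add_mul, Finset.sum_add_distrib]
  | mul_X p i hp =>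
    rw [map_mul, hp]
    ext
    · simp
    · simp [gr, dotProduct, pderiv_X, Pi.single_apply, add_mul, Finset.sum_add_distrib,
        mul_assoc, apply_ite]
      rw [mul_comm, Finset.mul_sum]

theorem jac_apply {B : Type} [CommRing B] [Algebra ℂ B] [Algebra B ℂ] [IsScalarTower ℂ B ℂ]
    (ψ : MvPolynomial σ ℂ →ₐ[ℂ] B) {w : σ → ℂ} (hw : ∀ f, algebraMap B ℂ (ψ f) = aeval w f)
    (D : Derivation ℂ B ℂ) (f : MvPolynomial σ ℂ) :
    D (ψ f) = gr f w ⬝ᵥ fun k => D (ψ (X k)) := by
  classical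
  induction f using MvPolynomial.induction_on with
  | C a => simp [gr, dotProduct]
  | add p q hp hq =>
    rw [map_add, map_add, hp, hq]
    simp [gr, dotProduct, add_mul, Finset.sum_add_distrib]
  | mul_X p i hp =>
    rw [map_mul, D.leibniz, hp, Algebra.smul_def, Algebra.smul_def, hw, hw]
    simp [gr, dotProduct, pderiv_X, Pi.single_apply, add_mul, Finset.sum_add_distrib,
      Finset.mul_sum, mul_assoc, apply_ite]

theorem jac_rank {A : Type} [CommRing A] {n : ℕ} (φ : MvPolynomial σ ℂ →+* A)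
    (hφ : Function.Surjective φ)
    (hs : RingHom.Locally (RingHom.IsStandardSmoothOfRelativeDimension n) (φ.comp C))
    {w : σ → ℂ} (hw : On (RingHom.ker φ) w) :
    finrank ℂ (Nm (RingHom.ker φ) w) + n = Fintype.card σ := by
  classical
  have lift : ∀ {R : Type} [CommRing R] (χ : MvPolynomial σ ℂ →+* R),
      (∀ f ∈ RingHom.ker φ, χ f = 0) → ∃ χ' : A →+* R, ∀ f, χ' (φ f) = χ f := fun χ h =>
    ⟨φ.liftOfSurjective hφ ⟨χ, h⟩, fun f => φ.liftOfRightInverse_comp_apply _ _ ⟨χ, h⟩ f⟩
  obtain ⟨ev, hev⟩ := lift (aeval w : MvPolynomial σ ℂ →ₐ[ℂ] ℂ).toRingHom hw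
  obtain ⟨s, h1, h2⟩ := hs
  obtain ⟨t, ht, h0⟩ : ∃ t ∈ s, ev t ≠ 0 := by
    by_contra! H
    exact RingHom.ker_ne_top ev (top_le_iff.1 (h1 ▸ Ideal.span_le.2 H))
  let B := Localization.Away t
  let _ : Algebra ℂ B := ((algebraMap A B).comp (φ.comp C)).toAlgebra
  have : Algebra.IsStandardSmoothOfRelativeDimension n ℂ B := h2 t ht
  let eB : B →+* ℂ := IsLocalization.Away.lift t (g := ev) (Ne.isUnit h0)
  have heB : ∀ a, eB (algebraMap A B a) = ev a := IsLocalization.Away.lift_eq t _
  let _ : Algebra B ℂ := eB.toAlgebra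
  have : IsScalarTower ℂ B ℂ := IsScalarTower.of_algebraMap_eq fun c =>
    ((heB _).trans ((hev _).trans (aeval_C _ _))).symm
  let ψ : MvPolynomial σ ℂ →ₐ[ℂ] B := ⟨(algebraMap A B).comp φ, fun _ => rfl⟩
  have hψ : ∀ f, algebraMap B ℂ (ψ f) = aeval w f := fun f => (heB _).trans (hev f)
  let Ψ : Derivation ℂ B ℂ →ₗ[ℂ] σ → ℂ :=
    { toFun := fun D k => D (ψ (X k)), map_add' := fun _ _ => rfl, map_smul' := fun _ _ => rfl }
  have inj : Function.Injective Ψ := by
    refine (injective_iff_map_eq_zero _).2 fun D hD => Derivation.ext fun b => ?_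
    have z : ∀ a, D (algebraMap A B a) = 0 := fun a => by
      obtain ⟨f, rfl⟩ := hφ a
      exact (jac_apply ψ hψ D f).trans ((congrArg _ hD).trans (dotProduct_zero _))
    obtain ⟨⟨a, c⟩, e⟩ := IsLocalization.surj (Submonoid.powers t) b
    have e2 := congrArg D e
    rw [D.leibniz, z, z, smul_zero, zero_add] at e2
    exact ((IsLocalization.map_units B c).smul_eq_zero).1 e2
  let β : LinearMap.BilinForm ℂ (σ → ℂ) := Matrix.toBilin' 1
  have hβ : ∀ x y, β x y = x ⬝ᵥ y := fun x y => by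
    simp only [β, Matrix.toBilin'_apply', Matrix.one_mulVec]
  have rg : LinearMap.range Ψ = β.orthogonal (Nm (RingHom.ker φ) w) := by
    ext u
    have hu : u ∈ β.orthogonal (Nm (RingHom.ker φ) w) ↔ ∀ f ∈ RingHom.ker φ, gr f w ⬝ᵥ u = 0 := by
      refine ⟨fun h f hf => (hβ _ _).symm.trans (h _ (Submodule.subset_span ⟨f, hf, rfl⟩)),
        fun h x hx => ?_⟩
      have : Nm (RingHom.ker φ) w ≤ LinearMap.ker (β.flip u) := Submodule.span_le.2 (by
        rintro _ ⟨f, hf, rfl⟩
        exact (hβ _ _).trans (h f hf))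
      exact this hx
    rw [hu]
    constructor
    · rintro ⟨D, rfl⟩ f hf
      refine (jac_apply ψ hψ D f).symm.trans ?_
      rw [show ψ f = 0 from (congrArg (algebraMap A B) hf).trans (map_zero _), map_zero]
    · intro h
      obtain ⟨χ, hχ⟩ := lift (aeval (fun k => TrivSqZeroExt.inl (w k) + TrivSqZeroExt.inr (u k)) :
        MvPolynomial σ ℂ →ₐ[ℂ] TrivSqZeroExt ℂ ℂ).toRingHom fun f hf =>
          (jac_dual w u f).trans (by rw [hw f hf, h f hf]; simp)
      have hχ' : ∀ f, χ (φ f) = TrivSqZeroExt.inl (aeval w f) + TrivSqZeroExt.inr (gr f w ⬝ᵥ u) :=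
        fun f => (hχ f).trans (jac_dual w u f)
      have hf : ∀ a, (χ a).fst = ev a := fun a => by
        obtain ⟨f, rfl⟩ := hφ a
        rw [hχ', hev]
        simp
      let χB : B →+* TrivSqZeroExt ℂ ℂ := IsLocalization.Away.lift t (g := χ)
        (TrivSqZeroExt.isUnit_iff_isUnit_fst.2 (by rw [hf]; exact Ne.isUnit h0))
      have hB : ∀ a, χB (algebraMap A B a) = χ a := IsLocalization.Away.lift_eq t _
      have hfB : ∀ b, (χB b).fst = eB b := fun b => RingHom.congr_fun
        (IsLocalization.ringHom_ext (Submonoid.powers t)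
          (j := (TrivSqZeroExt.fstHom ℂ ℂ ℂ).toRingHom.comp χB) (k := eB)
          (RingHom.ext fun a => ((congrArg _ (hB a)).trans (hf a)).trans (heB a).symm)) b
      have hc : ∀ c : ℂ, χB (algebraMap ℂ B c) = TrivSqZeroExt.inl c := fun c =>
        (hB _).trans ((hχ' (C c)).trans (by simp [gr, dotProduct]))
      refine ⟨Derivation.mk'
        { toFun := fun b => (χB b).snd
          map_add' := fun a b => by rw [map_add, TrivSqZeroExt.snd_add]
          map_smul' := fun c b => by
            rw [Algebra.smul_def, map_mul, hc]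
            simp } fun a b => ?_, funext fun k => ?_⟩
      · change (χB (a * b)).snd = eB a * (χB b).snd + eB b * (χB a).snd
        rw [map_mul, TrivSqZeroExt.snd_mul, hfB, hfB]
        simp [mul_comm]
      · change (χB (algebraMap A B (φ (X k)))).snd = u k
        rw [hB, hχ']
        simp [gr, dotProduct, pderiv_X, Pi.single_apply, apply_ite]
  have nd : β.Nondegenerate := by
    rw [LinearMap.BilinForm.nondegenerate_toBilin'_iff_det_ne_zero]
    simp
  have e1 := LinearMap.finrank_range_of_inj inj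
  have e2 := LinearMap.BilinForm.finrank_orthogonal nd (Nm (RingHom.ker φ) w)
  have e3 := Submodule.finrank_le (Nm (RingHom.ker φ) w)
  rw [rg, jac_der (n := n), e2] at e1
  rw [finrank_fintype_fun_eq_card] at e1 e3
  omega

end Pool.Agent.Lib.MP_36fb43_ag.Sc
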