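import Pool.Agent.Lib.MP_36fb43_ag.Sc.Chart

/-! The twisting sheaves and quadratic normality. -/

set_option autoImplicit false

namespace Pool.Agent.Lib.MP_36fb43_ag.Sc

open CategoryTheory AlgebraicGeometry

theorem exists_twist (d : ℕ) : ∃ L : P5.Modules, IsTwist d L := ⟨_, glue_frames (coc d)⟩

/-- the twisting sheaf `O(d)` -/
noncomputable def O (d : ℕ) : P5.Modules := (exists_twist d).choose

/-- the map `H⁰(ℙ⁵, O(2)) → H⁰(X, ι^* O(2))` is onto -/
def QuadNormal {X : Scheme.{0}} (ι : X ⟶ P5) : Prop := OntoSections ι (O 2)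

end Pool.Agent.Lib.MP_36fb43_ag.Sc
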