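import Pool.Agent.Lib.MP_36fb43_ag.Sc.Glue
import Pool.Agent.Lib.MP_36fb43_ag.Sc.Twist
import Pool.Agent.Lib.MP_36fb43_ag.Sc.Cone
import Pool.Agent.Lib.MP_36fb43_ag.Main

/-! The statement on schemes. -/

set_option autoImplicit false

namespace Pool.Agent.Lib.MP_36fb43_ag.Sc

open CategoryTheory AlgebraicGeometry MvPolynomial HomogeneousLocalization PV TopologicalSpace
open Pool.Agent.Lib.MP_cd184e_ag.B Pool.Agent.Lib.MP_d4c0ca_ag

noncomputable section

attribute [local instance] MvPolynomial.gradedAlgebra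

variable {Y : Scheme.{0}} [IsIntegral Y] (ι : Y ⟶ P5)

/-- the homogeneous ideal of the image -/
def idl : Ideal (MvPolynomial (Fin 6) ℂ) := (ι (genericPoint Y)).asHomogeneousIdeal.toIdeal

/-- `f (x / x i)` on `Y` -/
def ph (i : Fin 6) {V : Y.Opens} (h : V ≤ ι ⁻¹ᵁ chart i) : MvPolynomial (Fin 6) ℂ →+* Γ(Y, V) :=
  (Q.ap ι h).comp (dh i)

theorem ph_zero {d : ℕ} {f : MvPolynomial (Fin 6) ℂ} (hf : f.IsHomogeneous d) {i : Fin 6}
    {V : Y.Opens} (h : V ≤ ι ⁻¹ᵁ chart i) (hV : genericPoint Y ∈ V) :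
    ph ι i h f = 0 ↔ f ∈ idl ι := by
  have e : genericPoint Y ∈ Y.basicOpen (ph ι i h f) ↔ f ∉ idl ι :=
    (Q.mem_basicOpen_ap ι h _).trans ((and_iff_right hV).trans (dh_mem hf (h hV)))
  rw [← basicOpen_eq_bot_iff, ← not_iff_not, ← e, ← Opens.not_nonempty_iff_eq_bot, not_not]
  exact ⟨fun ⟨x, hx⟩ => ((genericPoint_spec Y).mem_open_set_iff (Y.basicOpen _).2).2 ⟨x, trivial, hx⟩,
    fun hx => ⟨_, hx⟩⟩

theorem ph_of_mem {d : ℕ} {f : MvPolynomial (Fin 6) ℂ} (hf : f.IsHomogeneous d) {i : Fin 6}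
    {V : Y.Opens} (h : V ≤ ι ⁻¹ᵁ chart i) (hm : f ∈ idl ι) : ph ι i h f = 0 := by
  by_cases hV : genericPoint Y ∈ V
  · exact (ph_zero ι hf h hV).2 hm
  · refine eq_zero_of_basicOpen_eq_bot _ (eq_bot_iff.2 fun x hx => (hV ?_).elim)
    exact ((genericPoint_spec Y).mem_open_set_iff V.2).2 ⟨x, trivial, Y.basicOpen_le _ hx⟩

omit [IsIntegral Y] in
theorem ph_trans {d : ℕ} {f : MvPolynomial (Fin 6) ℂ} (hf : f.IsHomogeneous d) (i j : Fin 6)
    {V : Y.Opens} (hi : V ≤ ι ⁻¹ᵁ chart i) (hj : V ≤ ι ⁻¹ᵁ chart j) :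
    ph ι i hi f = Q.ap ι hi (ratio i j) ^ d * ph ι j hj f := by
  have t := congrArg (Q.ap ι (show V ≤ ι ⁻¹ᵁ (chart i ⊓ chart j) from fun _ h => ⟨hi h, hj h⟩))
    (dh_trans hf i j inf_le_left inf_le_right)
  rw [map_mul, map_pow, Q.ap_rres, Q.ap_rres, Q.ap_rres] at t
  exact t

omit [IsIntegral Y] in
theorem ph_surj [IsClosedImmersion ι] (i : Fin 6) : Function.Surjective (ph ι i le_rfl) := by
  refine Function.Surjective.comp (g := Q.ap ι le_rfl) (fun a => ?_) (dh_surj i)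
  obtain ⟨b, rfl⟩ := ι.app_surjective _ (aff i) a
  exact ⟨b, rres_self le_rfl _⟩

omit [IsIntegral Y] in
theorem ph_smooth [IsClosedImmersion ι] [SmoothOfRelativeDimension 3 (ι ≫ strMap)] (i : Fin 6) :
    RingHom.Locally (RingHom.IsStandardSmoothOfRelativeDimension 3)
      ((ph ι i le_rfl).comp C) := by
  have h := HasRingHomProperty.appLE (@SmoothOfRelativeDimension 3) (ι ≫ strMap) ‹_›
    ⟨⊤, isAffineOpen_top _⟩ ⟨_, (aff i).preimage ι⟩ le_top
  have e : (ph ι i le_rfl).comp C =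
      (Q.cst (ι ≫ strMap) (ι ⁻¹ᵁ chart i)).comp Q.toC.symm.toRingHom := RingHom.ext fun c => by
    obtain ⟨z, rfl⟩ := Q.toC.surjective c
    exact ((congrArg (Q.ap ι le_rfl) (dh_C i z)).trans (Q.ap_cst ι strMap rfl _ z)).trans
      (congrArg _ (Q.toC.symm_apply_apply z).symm)
  rw [e]
  exact (RingHom.locally_respectsIso
    (RingHom.isStandardSmoothOfRelativeDimension_respectsIso (n := 3))).2 _ Q.toC.symm h

theorem cone_ex [IsClosedImmersion ι] [SmoothOfRelativeDimension 3 (ι ≫ strMap)] :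
    ∃ Z : Cone ℂ 6, Z.I = idl ι := by
  refine cone_of (ι (genericPoint Y)).isPrime (fun f hf => hom_mem _ hf) ?_ fun v hv h => ?_
  · exact Opens.mem_iSup.1 (show ι (genericPoint Y) ∈ iSup chart by rw [cov]; trivial)
  · obtain ⟨i, hi⟩ := Function.ne_iff.1 hv
    refine cone_two (fun f hf => hom_mem _ hf) (ph ι i le_rfl) (ph_surj ι i)
      ((congrArg (Q.ap ι le_rfl) (dh_self i)).trans (map_one _))
      (fun N F hF => ph_zero ι hF le_rfl fun hm => hi ?_) (ph_smooth ι i) hi h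
    simpa using h _ hm

theorem pt_mem [IsClosedImmersion ι] (v : Fin 6 → ℂ) (hv : v ≠ 0) :
    pt v hv ∈ Set.range ι ↔ On (idl ι) v := by
  have e : Set.range ι = closure {ι (genericPoint Y)} := by
    rw [← Set.image_singleton, ι.isClosedEmbedding.closure_image_eq, genericPoint_closure,
      Set.image_univ]
  rw [e]
  exact (ProjectiveSpectrum.le_iff_mem_closure _ _ _).symm.trans
    (le_core (P := (ι (genericPoint Y)).asHomogeneousIdeal) (J := RingHom.ker (eval v)))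

theorem sect_ex [IsClosedImmersion ι] {Z : Cone ℂ 6} (hZ : Z.I = idl ι) (h : ¬ QuadNormal ι) :
    ∃ s : Sect Z 2, ¬ s.Poly := by
  by_contra! H
  refine h (onto_of (exists_twist 2).choose_spec ι aff aff2 cov fun a ha => ?_)
  have one : ∀ i {V : Y.Opens} (h : V ≤ ι ⁻¹ᵁ chart i), ph ι i h (X i) = 1 := fun i V h =>
    (congrArg (Q.ap ι h) (dh_self i)).trans (map_one _)
  have h1 : ∀ i, ∃ N F, IsHomogeneous F N ∧ ph ι i le_rfl F = a i := fun i => by
    obtain ⟨f, hf⟩ := ph_surj ι i (a i)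
    obtain ⟨N, F, q, hF, rfl⟩ := cone_split i f
    exact ⟨N, F, hF, by simpa [one] using hf⟩
  choose N F hF e using h1
  obtain ⟨M, hM⟩ : ∃ M, ∀ i, N i ≤ M := ⟨∑ j, N j, fun i =>
    Finset.single_le_sum (fun _ _ => Nat.zero_le _) (Finset.mem_univ i)⟩
  let G : Fin 6 → MvPolynomial (Fin 6) ℂ := fun i => X i * (X i ^ (M + 2 - N i) * F i)
  have hG : ∀ i, (G i).IsHomogeneous (M + 1 + 2) := fun i => by
    have := (isHomogeneous_X ℂ i).mul ((isHomogeneous_X_pow i (M + 2 - N i)).mul (hF i))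
    rwa [show 1 + (M + 2 - N i + N i) = M + 1 + 2 by have := hM i; omega] at this
  have eG : ∀ i {V : Y.Opens} (h : V ≤ ι ⁻¹ᵁ chart i), ph ι i h (G i) = rres h (a i) :=
    fun i V h => by
      rw [map_mul, map_mul, map_pow, one, one_pow, one_mul, one_mul, ← e i]
      exact (Q.rres_ap ι le_rfl h _).symm
  obtain ⟨A, hA⟩ := H ⟨M + 1, G, hG, fun i j => by
    rw [hZ]
    by_cases hi : X i ∈ idl ι
    · exact sub_mem (Ideal.mul_mem_left _ _ (Ideal.mul_mem_right _ _ hi))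
        (Ideal.mul_mem_right _ _ (Ideal.pow_mem_of_mem _ hi _ M.succ_pos))
    by_cases hj : X j ∈ idl ι
    · exact sub_mem (Ideal.mul_mem_right _ _ (Ideal.pow_mem_of_mem _ hj _ M.succ_pos))
        (Ideal.mul_mem_left _ _ (Ideal.mul_mem_right _ _ hj))
    have li := ι.preimage_mono (inf_le_left : chart i ⊓ chart j ≤ chart i)
    have lj := ι.preimage_mono (inf_le_right : chart i ⊓ chart j ≤ chart j)
    refine (ph_zero ι (((isHomogeneous_X_pow j _).mul (hG i)).sub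
      ((isHomogeneous_X_pow i _).mul (hG j))) li ⟨hi, hj⟩).1 ?_
    have r : ph ι i li (X j) = Q.ap ι li (ratio i j) := congrArg (Q.ap ι li) (dh_X i j)
    rw [map_sub, map_mul _ (X j ^ _), map_mul _ (X i ^ _), map_pow, map_pow, one, r,
      ph_trans ι (hG j) i j li lj, eG, eG, ha i j _ li lj]
    ring⟩
  have hQ := homogeneousComponent_isHomogeneous 2 A
  refine ⟨fun i => dh i (homogeneousComponent 2 A), fun i j W hi hj => ?_, fun i => ?_⟩
  · exact dh_trans hQ i j hi hj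
  · have m : homogeneousComponent (M + 1 + 2) (X i ^ (M + 1) * A - G i) ∈ idl ι :=
      hZ ▸ Z.hom _ (hA i) _
    have c : homogeneousComponent (M + 1 + 2) (X i ^ (M + 1) * A) =
        X i ^ (M + 1) * homogeneousComponent 2 A := by
      rw [← decomposition.decompose'_apply, ← decomposition.decompose'_apply]
      exact DirectSum.coe_decompose_mul_add_of_left_mem (homogeneousSubmodule (Fin 6) ℂ)
        (isHomogeneous_X_pow i (M + 1))
    rw [map_sub, c, homogeneousComponent_eq_self (hG i)] at m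
    have z := ph_of_mem ι (((isHomogeneous_X_pow i _).mul hQ).sub (hG i)) (le_refl (ι ⁻¹ᵁ chart i)) m
    rw [map_sub, map_mul, map_pow, one, one_pow, one_mul, eG, rres_self, sub_eq_zero] at z
    exact z

theorem main [IsClosedImmersion ι] [SmoothOfRelativeDimension 3 (ι ≫ strMap)]
    (h : ¬ QuadNormal ι) :
    ∃ W : Submodule ℂ (LinearMap.BilinForm ℂ (Fin 6 → ℂ)), (∀ ω ∈ W, ω.IsAlt) ∧
      Module.finrank ℂ W = 4 ∧ ∀ (v : Fin 6 → ℂ) (hv : v ≠ 0),
        pt v hv ∈ Set.range ι ↔ ∃ ω ∈ W, ω ≠ 0 ∧ ∀ u, ω v u = 0 := by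
  obtain ⟨Z, hZ⟩ := cone_ex ι
  obtain ⟨s, hs⟩ := sect_ex ι hZ h
  obtain ⟨W, h1, h2, h3⟩ := cone_pal (hZ ▸ PV.main s hs)
  exact ⟨W, h1, h2, fun v hv => (pt_mem ι v hv).trans (h3 v hv)⟩

end

end Pool.Agent.Lib.MP_36fb43_ag.Sc
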